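import Mathlib
import Pool.Agent.L5helper64.LE.Final

/-!
# The gap question is a finite question, with a polynomial rate

For every finite poset `P` which is not a chain and every `n ≥ 2` there is a poset `P'` with at most
`n` elements, not a chain, outside `𝒟` if `P` is outside `𝒟`, with `δ(P') ≤ δ(P) + 4 n ^ (-c)`, where
`c > 0` is an absolute constant.  Hence the least balance constant of the posets with at most `n`
elements outside `𝒟` converges to the infimum over all finite posets outside `𝒟` at least at the rate
`4 n ^ (-c)`, and Q1 holds if and only if for some `n` all posets outside `𝒟` with at most `n` elements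
have balance constant at least `1/3 + 5 n ^ (-c)`.  More generally, if `δ(P) < 1/2 - η`, then `P'` with
`δ(P') ≤ δ(P) + ε` has at most `(4/ε) ^ (m exp (exp (B log(2/η)³ / η⁴)))` elements, and it can be chosen
such that all induced subposets of `P'` with at most `m` elements which are not direct sums are induced
subposets of `P`; for example the width does not increase if it is less than `m`.

Proof.  By the starting theorem `ManyIncomparable` the poset is `K`-thin with `K = K(η)`.  We may pass
to a summand which is not a direct sum and label its elements by a linear extension; elements with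
labels at distance at least `R = 2K` are comparable.  The probability that `x` comes before `y` in a
lower set `B` is an average of the probabilities in the lower sets `A` of size `t` in `B`.  The weight
of the initial segment `A = [0, t)` is at least `1 / binom(2R, R)` if `B` has `t + R` elements.  So the
interval which contains the probabilities of all lower sets of size at least `t` becomes shorter by the
factor `1 - 1 / binom(2R, R)` if `t` is replaced by `t + R`.  The same holds at the other end, hence the
probability is determined up to an exponentially small error by the elements in a window around `x` and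
`y`.  If the poset is large, two windows with the same relations are found, and the part between them
is cut out.  This preserves thinness, transitivity, the property of not being a direct sum, and all
windows up to translation, and the two ends stay where they are.
-/

set_option autoImplicit false

namespace Pool.Agent.Results.MP_33fb9b_co.BoundedSizeReduction

open Pool.Agent.H13R3.WB Pool.Agent.L5helper64.LE

/-- `P` is not a chain: there are two incomparable elements. -/
def NonChain (P : Type) [PartialOrder P] : Prop := ∃ x y : P, ¬ x ≤ y ∧ ¬ y ≤ x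

/-- Every antichain of `P` has at most `w` elements. -/
def WidthLe (w : ℕ) (P : Type) [PartialOrder P] : Prop :=
  ∀ s : Finset P, IsAntichain (· ≤ ·) (s : Set P) → s.card ≤ w

lemma nonChain_of_not_inD (P : Type) [Fintype P] [PartialOrder P] [Nonempty P] (h : ¬ InD P) :
    NonChain P := by
  obtain ⟨P₁, i1, i2, i3, g1, g2, g3, ⟨g4⟩⟩ := reduce_notSum
    (fun P _ => ¬ InD P) not_inD_sum _ P rfl h
  have hc : 2 ≤ Fintype.card P₁ := by
    by_contra hc
    apply g2
    have hc1 : 0 < Fintype.card P₁ := Fintype.card_pos
    have hs : Subsingleton P₁ := Fintype.card_le_one_iff_subsingleton.1 (by omega)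
    apply InD.one
    refine ⟨⟨⟨fun _ => 0, fun _ => i3.some, fun x => Subsingleton.elim _ _,
      fun x => Subsingleton.elim _ _⟩, ?_⟩⟩
    intro a b
    simp [Subsingleton.elim a b]
  obtain ⟨x, y, h1, h2⟩ := exists_incomp g1 hc
  exact ⟨g4 x, g4 y, by rwa [g4.le_iff_le], by rwa [g4.le_iff_le]⟩

lemma width_of_patterns {m w : ℕ} (hw : w < m) {P P' : Type} [PartialOrder P] [PartialOrder P']
    (h : ∀ (Q : Type) [Fintype Q] [PartialOrder Q], NotSum Q → Nat.card Q ≤ m →
      Nonempty (Q ↪o P') → Nonempty (Q ↪o P)) (hP : WidthLe w P) : WidthLe w P' := by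
  classical
  intro s hs
  by_contra hcon
  rw [not_le] at hcon
  obtain ⟨t, hts, ht⟩ := Finset.exists_subset_card_eq (show w + 1 ≤ s.card by omega)
  have hta : IsAntichain (· ≤ ·) (t : Set P') := hs.subset (by exact_mod_cast hts)
  have hQ : NotSum (t : Set P') := by
    rintro L ⟨x, hx⟩ ⟨y, hy⟩
    refine ⟨x, hx, y, hy, fun hxy => ?_⟩
    have hne : (x : P') ≠ y := by
      intro h1
      have : x = y := Subtype.ext h1
      rw [this] at hx
      exact hy hx
    exact hta x.2 y.2 hne hxy
  have : Fintype (t : Set P') := inferInstanceAs (Fintype t)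
  have hcard : Nat.card (t : Set P') = w + 1 := by
    rw [← ht]
    exact Nat.card_eq_card_toFinset (t : Set P') |>.trans (by simp)
  obtain ⟨f⟩ := h (t : Set P') hQ (by rw [hcard]; omega) ⟨OrderEmbedding.subtype _⟩
  have h1 := hP (Finset.univ.image f) (by
    intro a ha b hb hab hle
    simp only [Finset.coe_image, Finset.coe_univ, Set.image_univ, Set.mem_range] at ha hb
    obtain ⟨a, rfl⟩ := ha
    obtain ⟨b, rfl⟩ := hb
    have hne : (a : P') ≠ b := fun h => hab (by rw [Subtype.ext h])
    exact hta a.2 b.2 hne (f.le_iff_le.1 hle))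
  rw [Finset.card_image_of_injective _ f.injective, Finset.card_univ, ← Nat.card_eq_fintype_card,
    hcard] at h1
  omega

theorem result : ∃ B c : ℝ, 0 < B ∧ 0 < c ∧
    -- every poset with `δ < 1/2 - η` can be replaced by a small one with the same local patterns
    (∀ (η ε : ℝ) (m : ℕ), 0 < η → η ≤ 1 / 2 → 0 < ε → ε ≤ 1 → 1 ≤ m →
      ∀ (P : Type) [Fintype P] [PartialOrder P], NonChain P → balance P < 1 / 2 - η →
      ∃ (P' : Type) (_ : Fintype P') (_ : PartialOrder P'),
        (Nat.card P' : ℝ) ≤
          (4 / ε) ^ (m * Real.exp (Real.exp (B * Real.log (2 / η) ^ 3 / η ^ 4))) ∧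
        NonChain P' ∧ (¬ InD P → ¬ InD P') ∧ balance P' ≤ balance P + ε ∧
        (∀ (Q : Type) [Fintype Q] [PartialOrder Q], NotSum Q → Nat.card Q ≤ m →
          Nonempty (Q ↪o P') → Nonempty (Q ↪o P)) ∧
        (∀ w < m, WidthLe w P → WidthLe w P')) ∧
    -- posets with at most `n` elements are optimal up to `4 n ^ (-c)`
    (∀ (n : ℕ), 2 ≤ n → ∀ (P : Type) [Fintype P] [PartialOrder P], NonChain P →
      ∃ (P' : Type) (_ : Fintype P') (_ : PartialOrder P'), Nat.card P' ≤ n ∧
        NonChain P' ∧ (¬ InD P → ¬ InD P') ∧ balance P' ≤ balance P + 4 * (n : ℝ) ^ (-c)) ∧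
    -- Q1 is equivalent to a statement on finitely many posets for some `n`
    ((∃ ε : ℝ, 0 < ε ∧ ∀ (P : Type) [Fintype P] [PartialOrder P] [Nonempty P], ¬ InD P →
        1 / 3 + ε ≤ balance P) ↔
      ∃ n : ℕ, 2 ≤ n ∧ ∀ (P : Type) [Fintype P] [PartialOrder P] [Nonempty P], Nat.card P ≤ n →
        ¬ InD P → 1 / 3 + 5 * (n : ℝ) ^ (-c) ≤ balance P) := by
  obtain ⟨B, hB, h1⟩ := main
  obtain ⟨c, hc, h2⟩ := rate
  refine ⟨B, c, hB, hc, ?_, ?_, ?_⟩
  · intro η ε m hη hη2 hε hε2 hm P _ _ hP hb
    obtain ⟨P', i1, i2, g1, g2, g3, g4, g5⟩ := h1 η ε m hη hη2 hε hε2 hm P hP hb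
    exact ⟨P', i1, i2, g1, g2, fun h h' => h (g3 h'), g4, g5,
      fun w hw hPw => width_of_patterns hw g5 hPw⟩
  · intro n hn P _ _ hP
    obtain ⟨P', i1, i2, g1, g2, g3, g4⟩ := h2 n hn P hP
    exact ⟨P', i1, i2, g1, g2, fun h h' => h (g3 h'), g4⟩
  · constructor
    · rintro ⟨ε, hε, h⟩
      have hlim : Filter.Tendsto (fun n : ℕ => 5 * (n : ℝ) ^ (-c)) Filter.atTop (nhds (5 * 0)) :=
        ((tendsto_rpow_neg_atTop hc).comp tendsto_natCast_atTop_atTop).const_mul 5
      rw [mul_zero] at hlim
      obtain ⟨n, hn⟩ := ((hlim.eventually (gt_mem_nhds hε)).and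
        (Filter.eventually_ge_atTop 2)).exists
      refine ⟨n, hn.2, fun P _ _ _ _ hP => ?_⟩
      have := h P hP
      linarith [hn.1]
    · rintro ⟨n, hn, h⟩
      have hn0 : (0 : ℝ) < n := by
        have : 0 < n := by omega
        exact_mod_cast this
      refine ⟨(n : ℝ) ^ (-c), Real.rpow_pos_of_pos hn0 _, fun P _ _ _ hP => ?_⟩
      obtain ⟨P', i1, i2, g1, g2, g3, g4⟩ := h2 n hn P (nonChain_of_not_inD P hP)
      have hne : Nonempty P' := ⟨g2.choose⟩
      have := h P' g1 (fun h' => hP (g3 h'))
      linarith

end Pool.Agent.Results.MP_33fb9b_co.BoundedSizeReduction
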