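import Mathlib
import Pool.Agent.L5helper43.EM.Main
import Pool.Agent.N175.SO.CloseFin

/-!
# A gap for every poset in which some elements have the same lower elements

Let `A` be a set of `m` elements of a finite poset `P` with the same set `D` of strictly lower elements
(or with the same set of strictly upper elements), each of them incomparable to at most `t` elements of
`P`. Nothing is assumed about the other elements of `P`.

* `δ(P) ≥ m / (2 (t + 2))` if `m ≥ 2`.
* `δ(P) ≥ 7 / 20`, which is larger than the constant `β` of the second question, if `t` is at most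
  `4, 8, 13, 20, 30, 42` for `m = 3, 4, 5, 6, 7, 8`, or `m ≥ 9` and `t ≤ 29 (13 / 11) ^ (m - 9)`.
* `δ(P) ≥ 1 / 3 + 1 / 10000` if `t` is at most `9, 15, 25, 38` for `m = 4, 5, 6, 7`.

So a poset with `n` elements has such a gap if at least `6 log n` elements have the same lower elements.
The same holds for all posets of the closure of these classes under direct sums, disjoint sums and the
passage from a member outside `𝒟` to any poset which contains it as an autonomous subset.

Proof. Let the place of an element `x` of `A` be its distance to the last element of `D` in a linear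
extension. If the place of `x` is not the first one, `x` can be exchanged with the element before it. So
the joint law `f (s, t)` of the places of two elements of `A` is nonincreasing in each variable, and
`f (s, s + 1) = f (s + 1, s)`; the places are at most `t + 1`, and at most one element has the first
place. If all pairs are unbalanced then, by the theorem of Rédei, `A` has an ordering
`x₁, …, x_m` with `P(x_{i+1} < x_i) ≤ c` for all `i`. The existence of such laws (with equal marginals)
is a linear program, and for the given values of `m` and `t` it has no solution: there are potentials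
`φ_i` with `g_i ≤ λ_i P(x_{i+1} < x_i) + μ P(x_i is first) - E φ_i(x_i) + E φ_{i+1}(x_{i+1})` and
`∑ g_i > μ + c ∑ λ_i`. These inequalities are checked for the superlevel sets of `f` by a dynamic program
(`EM.chk`), whose correctness is proved here and which is run by the kernel. The last case for
`m ≥ 9` uses the inequality for mean gaps and the library of helper64 (`L5helper64.CL`).
-/

set_option autoImplicit false

namespace Pool.Agent.Results.MP_33fb9b_co.EqualLowerSets

open Pool.Agent.H13R3.WB Pool.Agent.H931R3.Bal Pool.Agent.N175.SO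

/-- The numbers `t` which are small for `m` elements. -/
def Small (m t : ℕ) : Prop :=
  (3 ≤ m ∧ t ≤ 4) ∨ (4 ≤ m ∧ t ≤ 8) ∨ (5 ≤ m ∧ t ≤ 13) ∨ (6 ≤ m ∧ t ≤ 20) ∨ (7 ≤ m ∧ t ≤ 30) ∨
    (8 ≤ m ∧ t ≤ 42) ∨ (9 ≤ m ∧ (t : ℝ) ≤ 29 * (13 / 11) ^ (m - 9))

/-- The numbers `t` which are moderate for `m` elements. -/
def Moderate (m t : ℕ) : Prop :=
  (4 ≤ m ∧ t ≤ 9) ∨ (5 ≤ m ∧ t ≤ 15) ∨ (6 ≤ m ∧ t ≤ 25) ∨ (7 ≤ m ∧ t ≤ 38)

/-- `A` is a set of `m` elements with the same strictly lower elements, or with the same strictly upper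
elements, each of them incomparable to at most `t` elements. -/
def Same (P : Type) [PartialOrder P] (A : Finset P) (m t : ℕ) : Prop :=
  A.card = m ∧ ((∀ x ∈ A, ∀ y ∈ A, ∀ z, z < x ↔ z < y) ∨ (∀ x ∈ A, ∀ y ∈ A, ∀ z, x < z ↔ y < z)) ∧
    ∀ x ∈ A, Nat.card {z : P // ¬ x ≤ z ∧ ¬ z ≤ x} ≤ t

theorem result : (5864893 + 27 * √57) / 16812976 < (7 / 20 : ℝ) ∧
    (∀ (P : Type) [Fintype P] [PartialOrder P] (A : Finset P) (m t : ℕ), Same P A m t →
      (2 ≤ m → (m : ℝ) / (2 * (t + 2)) ≤ balance P) ∧
      (Small m t → 7 / 20 ≤ balance P) ∧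
      (Moderate m t → 1 / 3 + 1 / 10000 ≤ balance P)) ∧
    ∀ (R : Type) [Fintype R] [PartialOrder R],
      (Closed (fun P _ => ∃ (A : Finset P) (m t : ℕ), Same P A m t ∧ Small m t) R →
        InD R ∨ 7 / 20 ≤ balance R) ∧
      (Closed (fun P _ => ∃ (A : Finset P) (m t : ℕ), Same P A m t ∧ (Small m t ∨ Moderate m t)) R →
        InD R ∨ 1 / 3 + 1 / 10000 ≤ balance R) := by
  have main : ∀ (P : Type) [Fintype P] [PartialOrder P] (A : Finset P) (m t : ℕ), Same P A m t →
      (2 ≤ m → (m : ℝ) / (2 * (t + 2)) ≤ balance P) ∧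
      (Small m t → 7 / 20 ≤ balance P) ∧
      (Moderate m t → 1 / 3 + 1 / 10000 ≤ balance P) := by
    rintro P _ _ A m t ⟨rfl, hA | hA, hb⟩
    · exact ⟨fun h => Pool.Agent.L5helper43.EM.mean_low h hA hb,
        fun h => Pool.Agent.L5helper43.EM.small_low h hA hb,
        fun h => Pool.Agent.L5helper43.EM.moderate_low h hA hb⟩
    · exact ⟨fun h => Pool.Agent.L5helper43.EM.mean_up h hA hb,
        fun h => Pool.Agent.L5helper43.EM.small_up h hA hb,
        fun h => Pool.Agent.L5helper43.EM.moderate_up h hA hb⟩
  have hne : ∀ (P : Type) [PartialOrder P] (A : Finset P) (m t : ℕ), Same P A m t →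
      (Small m t ∨ Moderate m t) → Nonempty P := by
    rintro P _ A m t ⟨rfl, -, -⟩ h
    have h1 : 0 < A.card := by
      unfold Small Moderate at h
      omega
    obtain ⟨x, -⟩ := Finset.card_pos.1 h1
    exact ⟨x⟩
  refine ⟨?_, main, fun R _ _ => ⟨fun hR => ?_, fun hR => ?_⟩⟩
  · have h : √57 < 8 := by
      rw [Real.sqrt_lt' (by norm_num)]
      norm_num
    linarith
  · refine (Closed.gap (c := 7 / 20) (by norm_num) ?_ hR).2
    rintro P _ _ ⟨A, m, t, h1, h2⟩
    exact ⟨hne P A m t h1 (Or.inl h2), Or.inr ((main P A m t h1).2.1 h2)⟩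
  · refine (Closed.gap (c := 1 / 3 + 1 / 10000) (by norm_num) ?_ hR).2
    rintro P _ _ ⟨A, m, t, h1, h2 | h2⟩
    · refine ⟨hne P A m t h1 (Or.inl h2), Or.inr ?_⟩
      have := (main P A m t h1).2.1 h2
      linarith
    · exact ⟨hne P A m t h1 (Or.inr h2), Or.inr ((main P A m t h1).2.2 h2)⟩

end Pool.Agent.Results.MP_33fb9b_co.EqualLowerSets
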