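import Mathlib
import Pool.Agent.L5helper64.CL.Final

/-!
# A gap of explicit size for posets of height two and for posets with many minimal elements

Let `𝒮` be the class of the nonempty finite posets `P` such that one of the following holds.

* `P` has height at most two (no chain of three elements).
* At least half of the elements of `P` are minimal, or at least half are maximal.

Then every poset of the closure of `𝒮` under direct sums, disjoint sums and the passage from a member
outside `𝒟` to any poset which contains it as an autonomous subset is in `𝒟` or has balance constant at
least `7 / 20`. This is larger than the constant `β` of the second question. There is no exception: in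
particular every poset of height two is in `𝒟` or has balance constant at least `7 / 20`.

Proof of the main case (at least seven elements). Let `h(x)` be the mean position of a minimal element
`x` in a linear extension. An element which is not the first one can be exchanged with the element
before it, so the joint law `f (s, t)` of the positions of two minimal elements is nonincreasing in each
variable off the diagonal, and `f (s, s + 1) = f (s + 1, s)`. From this several inequalities for the
probabilities `p(x)` of the first position, the mean positions `h(x)` and the probabilities `P(y < x)`
follow: `h(x) ≤ (N + 1) P(y < x)` if the positions are at most `N`, `p(x) (2 h(x) - 1) ≥ 1`,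
`33 p(x) + 43 P(y < x) + 5 h(y) ≥ 41`; and, with the inequality between the mean gaps of two elements
from the starting files, `h(y) ≥ 1.159 h(x) + 0.27` if `P(y < x) ≤ 7/20` and there are at least ten
elements. As the sum of the `p(x)` is at most `1`, the number of elements has to be large compared with
the number of minimal elements. The posets with at most six elements are checked by the kernel: the
relation is coded by a number, the linear extensions are counted by a recursion over the lower sets, and
it is proved that every poset with at least half of its elements minimal has such a code.
-/

set_option autoImplicit false

namespace Pool.Agent.Results.MP_33fb9b_co.ManyMinimal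

open Pool.Agent.H13R3.WB Pool.Agent.H931R3.Bal Pool.Agent.N175.SO Pool.Agent.L5helper64.CL

theorem result : (5864893 + 27 * √57) / 16812976 < (7 / 20 : ℝ) ∧
    ∀ (R : Type) [Fintype R] [PartialOrder R],
      Closed (fun P _ => Nonempty P ∧
        ((∀ a b c : P, a < b → ¬ b < c) ∨
          Nat.card P ≤ 2 * Nat.card {x : P // ∀ w, ¬ w < x} ∨
          Nat.card P ≤ 2 * Nat.card {x : P // ∀ w, ¬ x < w})) R →
      InD R ∨ 7 / 20 ≤ balance R := by
  constructor
  · have h : √57 < 8 := by
      rw [Real.sqrt_lt' (by norm_num)]
      norm_num
    linarith
  · intro R _ _ hR
    refine (Closed.gap (c := 7 / 20) (by norm_num) ?_ hR).2
    rintro P _ _ ⟨hne, hP⟩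
    refine ⟨hne, ?_⟩
    rcases hP with h | h | h
    · exact half_gap' (half_of_height h)
    · exact half_gap' (Or.inl h)
    · exact half_gap' (Or.inr h)

end Pool.Agent.Results.MP_33fb9b_co.ManyMinimal
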