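import Mathlib
import Pool.Agent.L5helper44.Thin.Gap
import Pool.Agent.L5helper44.Thin.C7.All

/-!
# The gap above `1/3` for posets with a thin lower end

There is an absolute constant `ε > 0` such that every finite poset `P` which is not a direct sum of two
nonempty posets, and in which every element with at most `7` elements below it is incomparable to at
most `7` elements, is in the class `𝒟` or has balance constant at least `1/3 + ε`.  Nothing is assumed
on the upper part of the poset.  In particular the `1/3`–`2/3` conjecture, with a uniform gap, holds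
for all posets in which every element is incomparable to at most `7` others; this was known (without a
gap) for `6` instead of `7`.

The proof.  In a poset without a gap the majority relation is a linear order, and an element which is
later in this order comes before an earlier one with probability at most `1/3 + ε`.  A search tree
explores the lower end of the poset: the elements above exactly a known lower set are counted, and the
majority order of two known elements is determined.  At a leaf a nonnegative combination of the
inequalities for the pairs of known elements, and of the inequalities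
`e(P - D) ≤ (7 + 1 + |{y < x}| - |D|) e(P - D - x)` (`x` minimal in `P - D`) between the numbers of linear
extensions, gives a contradiction.  The tree and the combinations (with integer weights) are checked by
the kernel; the checker is proved to be sound in the files `L5helper44/Thin`.
-/

set_option autoImplicit false

open Finset

namespace Pool.Agent.Results.MP_33fb9b_co.ThinLowerEnd

open Pool.Agent.H13R3.WB Pool.Agent.H931R3.Bal Pool.Agent.R636.BG Pool.Agent.L5helper44.Thin

theorem result : ∃ ε : ℝ, 0 < ε ∧ ∀ (R : Type) [Fintype R] [PartialOrder R],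
    Built (fun P _ => Nonempty P ∧
      ((∀ x : P, Nat.card {y : P // ¬ x ≤ y ∧ ¬ y ≤ x} ≤ 7) ∨
        ((∀ D : Set P, D.Nonempty → Dᶜ.Nonempty → ∃ a ∈ D, ∃ b ∈ Dᶜ, ¬ a < b) ∧
          ((∀ x : P, Nat.card {y : P // y < x} ≤ 7 →
              Nat.card {y : P // ¬ x ≤ y ∧ ¬ y ≤ x} ≤ 7) ∨
            (∀ x : P, Nat.card {y : P // x < y} ≤ 7 →
              Nat.card {y : P // ¬ x ≤ y ∧ ¬ y ≤ x} ≤ 7))))) R →
      InD R ∨ 1 / 3 + ε ≤ balance R := by
  obtain ⟨ε₁, h1, g1⟩ := low_gap C7.h0 rfl rfl rfl rfl (by norm_num)
  obtain ⟨ε₂, h2, g2⟩ := thin_gap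
  set ε : ℝ := min ε₁ (min ε₂ (1 / 200)) with hε
  have m1 : ε ≤ ε₁ := min_le_left _ _
  have m2 : ε ≤ ε₂ := (min_le_right _ _).trans (min_le_left _ _)
  have m3 : ε ≤ 1 / 200 := (min_le_right _ _).trans (min_le_right _ _)
  -- posets with a thin lower end
  have key : ∀ (P : Type) [Fintype P] [PartialOrder P] [Nonempty P], Indec P →
      (∀ x : P, Nat.card {y : P // y < x} ≤ 7 → Nat.card {y : P // ¬ x ≤ y ∧ ¬ y ≤ x} ≤ 7) →
      InD P ∨ 1 / 3 + ε ≤ balance P := by
    intro P _ _ _ hind hth
    rcases Nat.lt_or_ge (Fintype.card P) 5 with h5 | h5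
    · rcases (g2 P).2 (by
        intro x
        have h6 : Nat.card {y : P // ¬ x ≤ y ∧ ¬ y ≤ x} < Fintype.card P := by
          classical
          rw [Nat.card_eq_fintype_card]
          exact Fintype.card_subtype_lt (x := x) (by simp)
        omega) with h6 | h6
      · exact Or.inl h6
      · right; linarith
    · right
      have h6 := g1 P h5 (by
        intro x hx
        rw [← card_below] at hx
        have := hth x hx
        rw [card_inco] at this
        omega) hind (Or.inl rfl)
      linarith
  have hdual : ∀ (P : Type) [PartialOrder P],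
      (∀ D : Set P, D.Nonempty → Dᶜ.Nonempty → ∃ a ∈ D, ∃ b ∈ Dᶜ, ¬ a < b) → Indec Pᵒᵈ := by
    intro P _ hind D hD1 hD2
    obtain ⟨a, ha, b, hb, hab⟩ := hind (OrderDual.toDual ⁻¹' Dᶜ) hD2 (by
      obtain ⟨x, hx⟩ := hD1
      exact ⟨x, fun h => h hx⟩)
    refine ⟨OrderDual.toDual b, ?_, OrderDual.toDual a, ha, ?_⟩
    · by_contra h
      exact hb h
    · intro h
      exact hab (OrderDual.toDual_lt_toDual.1 h)
  refine ⟨ε, lt_min h1 (lt_min h2 (by norm_num)), fun R _ _ hR => ?_⟩
  refine (Built.gap (c := 1 / 3 + ε) (by linarith) ?_ hR).2
  intro P _ _ hP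
  obtain ⟨hne, hP⟩ := hP
  refine ⟨hne, ?_⟩
  rcases hP with hP | ⟨hind, hP | hP⟩
  · exact thin_of_indec (k := 7) (fun P _ _ _ hi ht => key P hi fun x _ => ht x) _ P rfl hP
  · exact key P hind hP
  · have : Nonempty Pᵒᵈ := hne
    rcases key Pᵒᵈ (hdual P hind) (by
      intro x hx
      have h7 := hP (OrderDual.ofDual x) hx
      refine le_trans (le_of_eq ?_) h7
      apply Nat.card_congr
      exact Equiv.subtypeEquiv OrderDual.ofDual fun y => and_comm) with h6 | h6
    · exact Or.inl (InD_of_dual h6)
    · right
      rw [← balance_dual P]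
      exact h6

end Pool.Agent.Results.MP_33fb9b_co.ThinLowerEnd
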